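import Pool.Agent.H.MP_a27c8d_co.C
import Pool.Agent.H.MP_a27c8d_co.B

namespace Pool.Agent.Results.MP_a27c8d_co.Small

open Pool.Agent.H.MP_a27c8d_co

theorem result : ∃ M : Matroid (Fin 13), M.E = Set.univ ∧ M.eRank = 10 ∧ ∃ z : ℂ, 1 < ‖z‖ ∧
    ∑ k ∈ Finset.range (10 + 1), ({I : Set (Fin 13) | M.Indep I ∧ I.ncard = k}.ncard : ℂ) *
      z ^ k * (1 - z) ^ (13 - k) = 0 := by
  obtain ⟨z, h1, h2⟩ := root
  refine ⟨MM, rfl, MM_rank, z, h1, ?_⟩
  rw [Finset.sum_congr rfl fun k hk => by rw [cnt' k (Finset.mem_range.1 hk)]]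
  unfold HP at h2
  simp only [Polynomial.eval_add, Polynomial.eval_mul, Polynomial.eval_C, Polynomial.eval_pow,
    Polynomial.eval_X] at h2
  simp only [Finset.sum_range_succ, Finset.sum_range_zero, ff]
  norm_num
  linear_combination (1 - z) ^ 3 * h2

end Pool.Agent.Results.MP_a27c8d_co.Small
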